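import Pool.Agent.Q51.ZC.Stm2
import Pool.Agent.Y405.CQ.MER

set_option autoImplicit false

/-! Job LRG of project ZC (helper51): the large primes. -/

namespace Pool.Agent.Q195.ZC

open Polynomial Finset
open Pool.Agent.Q51.ZC Pool.Agent.Q51.EL

/-- the residue class of the large primes -/
lemma cls {n q : ℕ} (hn : Odd n) (hq : q.Prime) (hqn : q ∣ n) :
    ∃ (N s : ℕ), 1 ≤ N ∧ s < N ∧ s.Coprime N ∧ ∀ p : ℕ, p.Prime → p % N = s →
      orderOf (p : ZMod q) = q - 1 ∧ (p - 1).Coprime n := by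
  have : Fact q.Prime := ⟨hq⟩
  obtain ⟨k, n', hn', hk⟩ := Nat.exists_eq_pow_mul_and_not_dvd
    (show n ≠ 0 by rintro rfl; exact absurd hn (by decide)) q hq.ne_one
  have hodd : Odd n' := by
    rw [hk] at hn
    exact (Nat.odd_mul.1 hn).2
  have hqodd : Odd q := hn.of_dvd_nat hqn
  have hq3 : 3 ≤ q := by
    rcases hq.two_le.lt_or_eq with h | h
    · exact h
    · rw [← h] at hqodd
      exact absurd hqodd (by decide)
  have hcop : q.Coprime n' := (Nat.Prime.coprime_iff_not_dvd hq).2 hn'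
  have hn'0 : n' ≠ 0 := by
    rintro rfl
    exact absurd hodd (by decide)
  obtain ⟨g, hg⟩ := IsCyclic.exists_generator (α := (ZMod q)ˣ)
  have hgo : orderOf g = q - 1 := by
    rw [orderOf_eq_card_of_forall_mem_zpowers hg, Nat.card_eq_fintype_card, ZMod.card_units]
  obtain ⟨s, hs1, hs2⟩ := Nat.chineseRemainder hcop (g : ZMod q).val 2
  have hsq : (s : ZMod q) = (g : ZMod q) := by
    have h := (ZMod.natCast_eq_natCast_iff _ _ _).2 hs1
    rw [h, ZMod.natCast_zmod_val]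
  have hNpos : 0 < q * n' := Nat.mul_pos hq.pos (Nat.pos_of_ne_zero hn'0)
  refine ⟨q * n', s % (q * n'), hNpos, Nat.mod_lt _ hNpos, ?_, ?_⟩
  · have h1 : s.Coprime (q * n') := by
      apply Nat.Coprime.mul_right
      · rw [Nat.coprime_comm, Nat.Prime.coprime_iff_not_dvd hq]
        intro h
        rw [← ZMod.natCast_eq_zero_iff, hsq] at h
        exact g.ne_zero h
      · have h2 : Nat.gcd s n' = Nat.gcd 2 n' := Nat.ModEq.gcd_eq hs2
        rw [Nat.coprime_iff_gcd_eq_one, h2]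
        exact Nat.coprime_two_left.2 hodd
    rw [Nat.coprime_iff_gcd_eq_one, ← Nat.gcd_rec, Nat.gcd_comm]
    exact h1
  · intro p hp hps
    have h1 : p ≡ s [MOD q * n'] := by
      show p % (q * n') = s % (q * n')
      exact hps
    have h2 : (p : ZMod q) = g := by
      rw [← hsq]
      exact (ZMod.natCast_eq_natCast_iff _ _ _).2 (h1.of_mul_right n')
    have h3 : p ≡ 2 [MOD n'] := (h1.of_mul_left q).trans hs2
    have h4 : orderOf (p : ZMod q) = q - 1 := by
      rw [h2, orderOf_units, hgo]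
    refine ⟨h4, ?_⟩
    have h5 : p ≠ 0 := hp.ne_zero
    have h6 : p - 1 + 1 = p := Nat.sub_add_cancel hp.one_lt.le
    rw [hk]
    apply Nat.Coprime.mul_right
    · apply Nat.Coprime.pow_right
      rw [Nat.coprime_comm, Nat.Prime.coprime_iff_not_dvd hq]
      intro h
      rw [← ZMod.natCast_eq_zero_iff] at h
      have h7 : (p : ZMod q) = 1 := by
        rw [← h6]
        push_cast
        rw [h, zero_add]
      rw [h7, orderOf_one] at h4
      omega
    · apply Nat.Coprime.symm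
      rw [Nat.coprime_iff_gcd_eq_one, Nat.eq_one_iff_not_exists_prime_dvd]
      intro r hr hrd
      have h8 : r ∣ n' := hrd.trans (Nat.gcd_dvd_left _ _)
      have h9 : r ∣ p - 1 := hrd.trans (Nat.gcd_dvd_right _ _)
      have h10 : p ≡ 2 [MOD r] := h3.of_dvd h8
      have h11 : p ≡ 1 [MOD r] := by
        have h12 : 1 ≡ p [MOD r] := (Nat.modEq_iff_dvd' hp.one_lt.le).2 h9
        exact h12.symm
      have h13 : 1 ≡ 2 [MOD r] := h11.symm.trans h10
      have h14 : r ∣ 2 - 1 := (Nat.modEq_iff_dvd' (by norm_num)).1 h13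
      exact hr.one_lt.ne' (Nat.dvd_one.1 h14)

lemma root {a b : ℤ} {n p : ℕ} (hp : p.Prime) (hc : (p - 1).Coprime n) (ha : ¬ (p : ℤ) ∣ a)
    (hb : ¬ (p : ℤ) ∣ b) : ∃ r : ℤ, (p : ℤ) ∣ (fq a b n).eval r := by
  have : Fact p.Prime := ⟨hp⟩
  have ha' : (a : ZMod p) ≠ 0 := by
    intro h
    exact ha ((ZMod.intCast_zmod_eq_zero_iff_dvd _ _).1 h)
  have hb' : (b : ZMod p) ≠ 0 := by
    intro h
    exact hb ((ZMod.intCast_zmod_eq_zero_iff_dvd _ _).1 h)
  have hcard : (Nat.card (ZMod p)ˣ).Coprime n := by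
    rw [Nat.card_eq_fintype_card, ZMod.card_units]
    exact hc
  obtain ⟨x, hx⟩ := (powCoprime hcard).surjective (Units.mk0 (-(b : ZMod p) / a)
    (div_ne_zero (neg_ne_zero.2 hb') ha'))
  have hx' : (x : ZMod p) ^ n = -(b : ZMod p) / a := by
    have h := congrArg Units.val hx
    simpa using h
  refine ⟨((x : ZMod p).val : ℤ), ?_⟩
  rw [← ZMod.intCast_zmod_eq_zero_iff_dvd]
  unfold fq
  simp only [eval_add, eval_mul, eval_C, eval_pow, eval_X]
  push_cast
  rw [ZMod.natCast_zmod_val, hx', mul_div_cancel₀ _ ha']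
  ring

lemma loglog_floor {X : ℝ} (hX : 3 ≤ X) :
    Real.log (Real.log X) - Real.log 2 ≤ Real.log (Real.log (⌊X⌋₊ : ℝ)) := by
  have h0 : 3 ≤ ⌊X⌋₊ := Nat.le_floor (by exact_mod_cast hX)
  have h1 : (3 : ℝ) ≤ ⌊X⌋₊ := by exact_mod_cast h0
  have h2 : X < ⌊X⌋₊ + 1 := Nat.lt_floor_add_one X
  have h3 : X ≤ (⌊X⌋₊ : ℝ) ^ 2 := by nlinarith
  have h4 : Real.log X ≤ 2 * Real.log (⌊X⌋₊ : ℝ) := by
    have := Real.log_le_log (by linarith) h3
    rw [Real.log_pow] at this
    exact_mod_cast this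
  have h5 : 0 < Real.log X := Real.log_pos (by linarith)
  have h6 : 0 < Real.log (⌊X⌋₊ : ℝ) := Real.log_pos (by linarith)
  have h7 := Real.log_le_log h5 h4
  rw [Real.log_mul (by norm_num) h6.ne'] at h7
  linarith

lemma loglog_mono {X Y : ℝ} (hY : 3 ≤ Y) (h : Y ≤ X) :
    Real.log (Real.log Y) ≤ Real.log (Real.log X) :=
  Real.log_le_log (Real.log_pos (by linarith)) (Real.log_le_log (by linarith) h)

lemma SP_eq (R : Set ℕ) (X : ℝ) [inst : DecidablePred (fun l => l ∈ R)] :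
    SP R X = ∑ l ∈ (pr X).filter (fun l => l ∈ R), (1 : ℝ) / l := by
  unfold SP
  have h : inst = fun l => Classical.propDecidable _ := Subsingleton.elim _ _
  subst h
  rfl

theorem lrg : S_LRG := by
  classical
  intro a b n q hn hq hqn ha hb B hB
  obtain ⟨N, s, hN, hs, hc, hcl⟩ := cls hn hq hqn
  obtain ⟨C, hC0, hC⟩ := Pool.Agent.Y405.CQ.mertens_ap N hN s hs hc
  set Z : ℤ := a * b * B with hZ
  have hZ0 : Z ≠ 0 := mul_ne_zero (mul_ne_zero ha hb) (by exact_mod_cast hB)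
  set E : ℝ := ∑ p ∈ Z.natAbs.primeFactors, (1 : ℝ) / p with hE
  have hφ : 0 < (1 : ℝ) / (Nat.totient N : ℝ) := by
    have : 0 < Nat.totient N := Nat.totient_pos.2 hN
    positivity
  refine ⟨{p | p.Prime ∧ p % N = s ∧ ¬ (p : ℤ) ∣ Z}, 1 / (Nat.totient N : ℝ),
    2 * C + E + 1 / (Nat.totient N : ℝ) * Real.log 2, hφ, ?_, ?_⟩
  · rintro p ⟨hp, hps, hpz⟩
    have h1 := hcl p hp hps
    refine ⟨hp, ?_, h1.1, ?_⟩
    · intro h
      apply hpz
      rw [hZ]
      exact Dvd.dvd.mul_left (by exact_mod_cast h) _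
    · apply root hp h1.2
      · intro h
        exact hpz (Dvd.dvd.mul_right (Dvd.dvd.mul_right h _) _)
      · intro h
        exact hpz (Dvd.dvd.mul_right (Dvd.dvd.mul_left h _) _)
  · intro X Y hY hYX
    have hX : 3 ≤ X := hY.trans hYX
    set M : ℝ → ℝ := fun X => ∑ p ∈ (Icc 1 ⌊X⌋₊).filter (fun p => p.Prime ∧ p % N = s),
      (1 : ℝ) / p with hM
    set R : Set ℕ := {p | p.Prime ∧ p % N = s ∧ ¬ (p : ℤ) ∣ Z} with hR
    have hsub : ∀ X : ℝ, (pr X).filter (fun l => l ∈ R) ⊆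
        (Icc 1 ⌊X⌋₊).filter (fun p => p.Prime ∧ p % N = s) := by
      intro X p hp
      rw [mem_filter] at hp
      obtain ⟨hp1, hp2⟩ := hp
      unfold pr at hp1
      rw [mem_filter] at hp1 ⊢
      exact ⟨hp1.1, hp2.1, hp2.2.1⟩
    have hup : SP R Y ≤ M Y := by
      rw [SP_eq]
      refine Finset.sum_le_sum_of_subset_of_nonneg (hsub Y) fun i _ _ => by positivity
    have hlow : M X - E ≤ SP R X := by
      rw [sub_le_iff_le_add]
      rw [SP_eq]
      have h1 : (Icc 1 ⌊X⌋₊).filter (fun p => p.Prime ∧ p % N = s) ⊆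
          (pr X).filter (fun l => l ∈ R) ∪ Z.natAbs.primeFactors := by
        intro p hp
        rw [mem_filter] at hp
        rw [mem_union]
        by_cases h2 : (p : ℤ) ∣ Z
        · right
          rw [Nat.mem_primeFactors]
          exact ⟨hp.2.1, Int.natCast_dvd.1 h2, Int.natAbs_ne_zero.2 hZ0⟩
        · left
          unfold pr
          rw [mem_filter, mem_filter]
          exact ⟨⟨hp.1, hp.2.1⟩, hp.2.1, hp.2.2, h2⟩
      refine (Finset.sum_le_sum_of_subset_of_nonneg h1 ?_).trans ?_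
      · intro i _ _
        positivity
      · have h2 := Finset.sum_union_inter (s₁ := (pr X).filter (fun l => l ∈ R))
          (s₂ := Z.natAbs.primeFactors) (f := fun p : ℕ => (1 : ℝ) / p)
        have h3 : 0 ≤ ∑ p ∈ (pr X).filter (fun l => l ∈ R) ∩ Z.natAbs.primeFactors, (1 : ℝ) / p :=
          Finset.sum_nonneg fun i _ => by positivity
        rw [hE]
        linarith
    have h1 := abs_le.1 (hC ⌊X⌋₊ (Nat.le_floor (by exact_mod_cast hX)))
    have h2 := abs_le.1 (hC ⌊Y⌋₊ (Nat.le_floor (by exact_mod_cast hY)))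
    have h3 := loglog_floor hX
    have h4 : Real.log (Real.log (⌊Y⌋₊ : ℝ)) ≤ Real.log (Real.log Y) := by
      have h5 : 3 ≤ ⌊Y⌋₊ := Nat.le_floor (by exact_mod_cast hY)
      exact loglog_mono (by exact_mod_cast h5) (Nat.floor_le (by linarith))
    have h5 : Real.log (Real.log X / Real.log Y) = Real.log (Real.log X) - Real.log (Real.log Y) :=
      Real.log_div (Real.log_pos (by linarith)).ne' (Real.log_pos (by linarith)).ne'
    rw [h5]
    have h6 := mul_le_mul_of_nonneg_left h3 hφ.le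
    have h7 := mul_le_mul_of_nonneg_left h4 hφ.le
    have h8 : M X = ∑ p ∈ (Icc 1 ⌊X⌋₊).filter (fun p => p.Prime ∧ p % N = s), (1 : ℝ) / p := rfl
    have h9 : M Y = ∑ p ∈ (Icc 1 ⌊Y⌋₊).filter (fun p => p.Prime ∧ p % N = s), (1 : ℝ) / p := rfl
    rw [← h8] at h1
    rw [← h9] at h2
    nlinarith [h1.1, h2.2]

end Pool.Agent.Q195.ZC
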